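import Mathlib

/-!
# Up-compression of a family along a list of coordinates

`comp l F` is the family obtained from `F` by up-compressing along all coordinates of `l`
(the head of the list is compressed last) and `star l F A` is the member of `comp l F` which
the member `A` of `F` is moved to.  The main result of the file is `eq_of_subset_star`: for a
union-closed family the intervals `[A, star l F A]` are pairwise disjoint.
-/

namespace Pool.Agent.TH477.UCD

open Finset

variable {α : Type*} [DecidableEq α]

/-- up-compression of a family along a list of coordinates -/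
def comp : List α → Finset (Finset α) → Finset (Finset α)
  | [], F => F
  | i :: l, F =>
      (comp l (F.nonMemberSubfamily i) ∩ comp l (F.memberSubfamily i)) ∪
      (comp l (F.nonMemberSubfamily i) ∪ comp l (F.memberSubfamily i)).image (insert i)

/-- where the member `A` of the family `F` is moved to by the compression -/
def star : List α → Finset (Finset α) → Finset α → Finset α
  | [], _, A => A
  | i :: l, F, A =>
      if i ∈ A then insert i (star l (F.memberSubfamily i) (A.erase i))
      else if star l (F.nonMemberSubfamily i) A ∈ comp l (F.memberSubfamily i) then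
        star l (F.nonMemberSubfamily i) A
      else insert i (star l (F.nonMemberSubfamily i) A)

theorem comp_cons (i : α) (l : List α) (F : Finset (Finset α)) : comp (i :: l) F =
    (comp l (F.nonMemberSubfamily i) ∩ comp l (F.memberSubfamily i)) ∪
      (comp l (F.nonMemberSubfamily i) ∪ comp l (F.memberSubfamily i)).image (insert i) := rfl

theorem subset_star (l : List α) : ∀ (F : Finset (Finset α)) (A : Finset α), A ⊆ star l F A := by
  induction l with
  | nil => intro F A; simp [star]
  | cons i l ih =>
    intro F A
    unfold star
    split_ifs with h1 h2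
    · intro x hx
      rw [mem_insert]
      by_cases hxi : x = i
      · exact Or.inl hxi
      · exact Or.inr (ih _ _ (mem_erase.2 ⟨hxi, hx⟩))
    · exact ih _ _
    · exact (ih _ _).trans (subset_insert _ _)

theorem star_subset (l : List α) : ∀ (F : Finset (Finset α)) (A : Finset α),
    star l F A ⊆ A ∪ l.toFinset := by
  induction l with
  | nil => intro F A; simp [star]
  | cons i l ih =>
    intro F A
    unfold star
    split_ifs with h1 h2
    · intro x hx
      rw [mem_insert] at hx
      rcases hx with hx | hx
      · simp [hx]
      · have := ih _ _ hx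
        simp only [mem_union, mem_erase, List.mem_toFinset, List.toFinset_cons, mem_insert] at this ⊢
        tauto
    · intro x hx
      have := ih _ _ hx
      simp only [mem_union, List.mem_toFinset, List.toFinset_cons, mem_insert] at this ⊢
      tauto
    · intro x hx
      rw [mem_insert] at hx
      rcases hx with hx | hx
      · simp [hx]
      · have := ih _ _ hx
        simp only [mem_union, List.mem_toFinset, List.toFinset_cons, mem_insert] at this ⊢
        tauto

theorem star_mem_comp (l : List α) : ∀ (F : Finset (Finset α)) (A : Finset α), A ∈ F →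
    star l F A ∈ comp l F := by
  induction l with
  | nil => intro F A hA; simpa [star, comp] using hA
  | cons i l ih =>
    intro F A hA
    rw [comp_cons]
    unfold star
    split_ifs with h1 h2
    · have h : A.erase i ∈ F.memberSubfamily i := by
        rw [mem_memberSubfamily]
        exact ⟨by rwa [insert_erase h1], by simp⟩
      exact mem_union_right _ (mem_image_of_mem _ (mem_union_right _ (ih _ _ h)))
    · have h : A ∈ F.nonMemberSubfamily i := by
        rw [mem_nonMemberSubfamily]; exact ⟨hA, h1⟩
      exact mem_union_left _ (mem_inter.2 ⟨ih _ _ h, h2⟩)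
    · have h : A ∈ F.nonMemberSubfamily i := by
        rw [mem_nonMemberSubfamily]; exact ⟨hA, h1⟩
      exact mem_union_right _ (mem_image_of_mem _ (mem_union_left _ (ih _ _ h)))

theorem exists_star_eq (l : List α) : ∀ (F : Finset (Finset α)) (B : Finset α), B ∈ comp l F →
    ∃ A ∈ F, star l F A = B := by
  induction l with
  | nil => intro F B hB; exact ⟨B, by simpa [comp] using hB, by simp [star]⟩
  | cons i l ih =>
    intro F B hB
    have key : ∀ C, C ∈ comp l (F.memberSubfamily i) → ∃ A ∈ F, star (i :: l) F A = insert i C := by
      intro C hC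
      obtain ⟨R, hR, hRC⟩ := ih _ _ hC
      rw [mem_memberSubfamily] at hR
      refine ⟨insert i R, hR.1, ?_⟩
      unfold star
      rw [if_pos (mem_insert_self _ _), erase_insert hR.2, hRC]
    unfold comp at hB
    rw [mem_union, mem_inter, mem_image] at hB
    rcases hB with ⟨hB0, hB1⟩ | ⟨C, hC, rfl⟩
    · obtain ⟨S, hS, hSB⟩ := ih _ _ hB0
      rw [mem_nonMemberSubfamily] at hS
      refine ⟨S, hS.1, ?_⟩
      unfold star
      rw [if_neg hS.2, hSB, if_pos hB1]
    · rw [mem_union] at hC
      rcases hC with hC | hC
      · by_cases hC1 : C ∈ comp l (F.memberSubfamily i)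
        · exact key C hC1
        · obtain ⟨S, hS, hSC⟩ := ih _ _ hC
          rw [mem_nonMemberSubfamily] at hS
          refine ⟨S, hS.1, ?_⟩
          unfold star
          rw [if_neg hS.2, hSC, if_neg hC1]
      · exact key C hC

theorem comp_up (l : List α) : ∀ (F : Finset (Finset α)) (B : Finset α), B ∈ comp l F →
    ∀ j ∈ l, insert j B ∈ comp l F := by
  induction l with
  | nil => intro F B _ j hj; simp at hj
  | cons i l ih =>
    intro F B hB j hj
    unfold comp at hB ⊢
    rw [mem_union, mem_inter, mem_image] at hB ⊢
    rw [List.mem_cons] at hj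
    rcases hj with rfl | hj
    · rcases hB with ⟨hB0, hB1⟩ | ⟨C, hC, rfl⟩
      · exact Or.inr ⟨B, mem_union_left _ hB0, rfl⟩
      · exact Or.inr ⟨C, hC, by simp⟩
    · rcases hB with ⟨hB0, hB1⟩ | ⟨C, hC, rfl⟩
      · exact Or.inl ⟨ih _ _ hB0 j hj, ih _ _ hB1 j hj⟩
      · refine Or.inr ⟨insert j C, ?_, insert_comm _ _ _⟩
        rw [mem_union] at hC ⊢
        exact hC.imp (fun h => ih _ _ h j hj) (fun h => ih _ _ h j hj)

theorem star_mem_comp_of_module (l : List α) : l.Nodup → ∀ (X Y : Finset (Finset α)),
    (∀ S ∈ X, ∀ R ∈ Y, S ∪ R ∈ Y) → ∀ S ∈ X, ∀ R ∈ Y, S ⊆ R → R ⊆ star l X S →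
    star l X S ∈ comp l Y := by
  induction l with
  | nil =>
    intro _ X Y _ S _ R hR hSR hRS
    simp only [star, comp] at hRS ⊢
    rwa [subset_antisymm hSR hRS]
  | cons i l ih =>
    intro hnd X Y hXY S hS R hR hSR hRS
    rw [List.nodup_cons] at hnd
    obtain ⟨hil, hnd⟩ := hnd
    have h11 : ∀ S ∈ X.memberSubfamily i, ∀ R ∈ Y.memberSubfamily i,
        S ∪ R ∈ Y.memberSubfamily i := by
      intro S hS R hR
      rw [mem_memberSubfamily] at hS hR ⊢
      refine ⟨?_, by simp [hS.2, hR.2]⟩
      have := hXY _ hS.1 _ hR.1
      rwa [← insert_union_distrib] at this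
    have h01 : ∀ S ∈ X.nonMemberSubfamily i, ∀ R ∈ Y.memberSubfamily i,
        S ∪ R ∈ Y.memberSubfamily i := by
      intro S hS R hR
      rw [mem_nonMemberSubfamily] at hS
      rw [mem_memberSubfamily] at hR ⊢
      refine ⟨?_, by simp [hS.2, hR.2]⟩
      have := hXY _ hS.1 _ hR.1
      rwa [union_insert] at this
    have h10 : ∀ S ∈ X.memberSubfamily i, ∀ R ∈ Y.nonMemberSubfamily i,
        S ∪ R ∈ Y.memberSubfamily i := by
      intro S hS R hR
      rw [mem_nonMemberSubfamily] at hR
      rw [mem_memberSubfamily] at hS ⊢
      refine ⟨?_, by simp [hS.2, hR.2]⟩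
      have := hXY _ hS.1 _ hR.1
      rwa [insert_union] at this
    have h00 : ∀ S ∈ X.nonMemberSubfamily i, ∀ R ∈ Y.nonMemberSubfamily i,
        S ∪ R ∈ Y.nonMemberSubfamily i := by
      intro S hS R hR
      rw [mem_nonMemberSubfamily] at hR hS ⊢
      exact ⟨hXY _ hS.1 _ hR.1, by simp [hS.2, hR.2]⟩
    by_cases hiS : i ∈ S
    · -- both contain `i`
      have hiR : i ∈ R := hSR hiS
      have hS1 : S.erase i ∈ X.memberSubfamily i := by
        rw [mem_memberSubfamily]; exact ⟨by rwa [insert_erase hiS], by simp⟩
      have hR1 : R.erase i ∈ Y.memberSubfamily i := by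
        rw [mem_memberSubfamily]; exact ⟨by rwa [insert_erase hiR], by simp⟩
      have hst : star (i :: l) X S = insert i (star l (X.memberSubfamily i) (S.erase i)) := by
        conv_lhs => unfold star
        rw [if_pos hiS]
      rw [hst] at hRS ⊢
      have hsub : R.erase i ⊆ star l (X.memberSubfamily i) (S.erase i) := by
        intro x hx
        rw [mem_erase] at hx
        have := hRS hx.2
        rw [mem_insert] at this
        exact this.resolve_left hx.1
      have := ih hnd _ _ h11 _ hS1 _ hR1 (erase_subset_erase _ hSR) hsub
      unfold comp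
      exact mem_union_right _ (mem_image_of_mem _ (mem_union_right _ this))
    · have hS0 : S ∈ X.nonMemberSubfamily i := by
        rw [mem_nonMemberSubfamily]; exact ⟨hS, hiS⟩
      have hiP : i ∉ star l (X.nonMemberSubfamily i) S := by
        intro h
        have := star_subset _ _ _ h
        rw [mem_union, List.mem_toFinset] at this
        exact this.elim hiS hil
      by_cases hiR : i ∈ R
      · have hR1 : R.erase i ∈ Y.memberSubfamily i := by
          rw [mem_memberSubfamily]; exact ⟨by rwa [insert_erase hiR], by simp⟩
        have hst : star (i :: l) X S = insert i (star l (X.nonMemberSubfamily i) S) := by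
          have h1 : star (i :: l) X S = if star l (X.nonMemberSubfamily i) S ∈
              comp l (X.memberSubfamily i) then star l (X.nonMemberSubfamily i) S
              else insert i (star l (X.nonMemberSubfamily i) S) := by
            conv_lhs => unfold star
            rw [if_neg hiS]
          by_cases h2 : star l (X.nonMemberSubfamily i) S ∈ comp l (X.memberSubfamily i)
          · rw [h1, if_pos h2] at hRS
            exact absurd (hRS hiR) hiP
          · rw [h1, if_neg h2]
        rw [hst] at hRS ⊢
        have hsub : R.erase i ⊆ star l (X.nonMemberSubfamily i) S := by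
          intro x hx
          rw [mem_erase] at hx
          have := hRS hx.2
          rw [mem_insert] at this
          exact this.resolve_left hx.1
        have hSR' : S ⊆ R.erase i := by
          intro x hx
          rw [mem_erase]
          exact ⟨fun h => hiS (h ▸ hx), hSR hx⟩
        have := ih hnd _ _ h01 _ hS0 _ hR1 hSR' hsub
        unfold comp
        exact mem_union_right _ (mem_image_of_mem _ (mem_union_right _ this))
      · have hR0 : R ∈ Y.nonMemberSubfamily i := by
          rw [mem_nonMemberSubfamily]; exact ⟨hR, hiR⟩
        have h1 : star (i :: l) X S = if star l (X.nonMemberSubfamily i) S ∈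
            comp l (X.memberSubfamily i) then star l (X.nonMemberSubfamily i) S
            else insert i (star l (X.nonMemberSubfamily i) S) := by
          conv_lhs => unfold star
          rw [if_neg hiS]
        by_cases h2 : star l (X.nonMemberSubfamily i) S ∈ comp l (X.memberSubfamily i)
        · rw [h1, if_pos h2] at hRS ⊢
          have hP0 := ih hnd _ _ h00 _ hS0 _ hR0 hSR hRS
          obtain ⟨Q, hQ, hQP⟩ := exists_star_eq _ _ _ h2
          obtain ⟨T, hT, hTP⟩ := exists_star_eq _ _ _ hP0
          have hQT := h10 _ hQ _ hT
          have hsub : Q ∪ T ⊆ star l (X.memberSubfamily i) Q := by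
            apply union_subset (subset_star _ _ _)
            rw [hQP, ← hTP]
            exact subset_star _ _ _
          have hP1 := ih hnd _ _ h11 _ hQ _ hQT subset_union_left hsub
          rw [hQP] at hP1
          unfold comp
          exact mem_union_left _ (mem_inter.2 ⟨hP0, hP1⟩)
        · rw [h1, if_neg h2] at hRS ⊢
          have hsub : R ⊆ star l (X.nonMemberSubfamily i) S := by
            intro x hx
            have := hRS hx
            rw [mem_insert] at this
            exact this.resolve_left (fun h => hiR (h ▸ hx))
          have hP0 := ih hnd _ _ h00 _ hS0 _ hR0 hSR hsub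
          unfold comp
          exact mem_union_right _ (mem_image_of_mem _ (mem_union_left _ hP0))

/-- A member `A` containing `i` and a member `B` not containing `i` have disjoint intervals
(auxiliary step). -/
theorem eq_of_subset_star (l : List α) : l.Nodup → ∀ (F : Finset (Finset α)),
    (∀ A ∈ F, ∀ B ∈ F, A ∪ B ∈ F) → ∀ A ∈ F, ∀ B ∈ F, A ⊆ star l F B → B ⊆ star l F A →
    A = B := by
  induction l with
  | nil =>
    intro _ F _ A _ B _ hAB hBA
    simp only [star] at hAB hBA
    exact subset_antisymm hAB hBA
  | cons i l ih =>
    intro hnd F hF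
    rw [List.nodup_cons] at hnd
    obtain ⟨hil, hnd⟩ := hnd
    have h11 : ∀ S ∈ F.memberSubfamily i, ∀ R ∈ F.memberSubfamily i,
        S ∪ R ∈ F.memberSubfamily i := by
      intro S hS R hR
      rw [mem_memberSubfamily] at hS hR ⊢
      refine ⟨?_, by simp [hS.2, hR.2]⟩
      have := hF _ hS.1 _ hR.1
      rwa [← insert_union_distrib] at this
    have h01 : ∀ S ∈ F.nonMemberSubfamily i, ∀ R ∈ F.memberSubfamily i,
        S ∪ R ∈ F.memberSubfamily i := by
      intro S hS R hR
      rw [mem_nonMemberSubfamily] at hS
      rw [mem_memberSubfamily] at hR ⊢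
      refine ⟨?_, by simp [hS.2, hR.2]⟩
      have := hF _ hS.1 _ hR.1
      rwa [union_insert] at this
    have h00 : ∀ S ∈ F.nonMemberSubfamily i, ∀ R ∈ F.nonMemberSubfamily i,
        S ∪ R ∈ F.nonMemberSubfamily i := by
      intro S hS R hR
      rw [mem_nonMemberSubfamily] at hR hS ⊢
      exact ⟨hF _ hS.1 _ hR.1, by simp [hS.2, hR.2]⟩
    have hpos : ∀ A, i ∈ A →
        star (i :: l) F A = insert i (star l (F.memberSubfamily i) (A.erase i)) := by
      intro A hA
      conv_lhs => unfold star
      rw [if_pos hA]
    have hneg : ∀ A, i ∉ A → star (i :: l) F A = if star l (F.nonMemberSubfamily i) A ∈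
            comp l (F.memberSubfamily i) then star l (F.nonMemberSubfamily i) A
            else insert i (star l (F.nonMemberSubfamily i) A) := by
      intro A hA
      conv_lhs => unfold star
      rw [if_neg hA]
    -- the mixed case is impossible
    have mixed : ∀ A ∈ F, ∀ B ∈ F, i ∈ A → i ∉ B → A ⊆ star (i :: l) F B →
        B ⊆ star (i :: l) F A → False := by
      intro A hA B hB hiA hiB hAB hBA
      have hA1 : A.erase i ∈ F.memberSubfamily i := by
        rw [mem_memberSubfamily]; exact ⟨by rwa [insert_erase hiA], by simp⟩
      have hB0 : B ∈ F.nonMemberSubfamily i := by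
        rw [mem_nonMemberSubfamily]; exact ⟨hB, hiB⟩
      have hiP : i ∉ star l (F.nonMemberSubfamily i) B := by
        intro h
        have := star_subset _ _ _ h
        rw [mem_union, List.mem_toFinset] at this
        exact this.elim hiB hil
      have h2 : star l (F.nonMemberSubfamily i) B ∉ comp l (F.memberSubfamily i) := by
        intro h2
        rw [hneg B hiB, if_pos h2] at hAB
        exact hiP (hAB hiA)
      rw [hneg B hiB, if_neg h2] at hAB
      rw [hpos A hiA] at hBA
      have hA1P : A.erase i ⊆ star l (F.nonMemberSubfamily i) B := by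
        intro x hx
        rw [mem_erase] at hx
        have := hAB hx.2
        rw [mem_insert] at this
        exact this.resolve_left hx.1
      have hBs : B ⊆ star l (F.memberSubfamily i) (A.erase i) := by
        intro x hx
        have := hBA hx
        rw [mem_insert] at this
        exact this.resolve_left (fun h => hiB (h ▸ hx))
      have hT : B ∪ A.erase i ∈ F.memberSubfamily i := h01 _ hB0 _ hA1
      have hTA : B ∪ A.erase i = A.erase i := by
        apply ih hnd _ h11 _ hT _ hA1
        · exact union_subset hBs (subset_star _ _ _)
        · exact subset_union_right.trans (subset_star _ _ _)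
      have hBA1 : B ⊆ A.erase i := by
        rw [← hTA]; exact subset_union_left
      exact h2 (star_mem_comp_of_module l hnd _ _ h01 _ hB0 _ hA1 hBA1 hA1P)
    intro A hA B hB hAB hBA
    by_cases hiA : i ∈ A
    · by_cases hiB : i ∈ B
      · have hA1 : A.erase i ∈ F.memberSubfamily i := by
          rw [mem_memberSubfamily]; exact ⟨by rwa [insert_erase hiA], by simp⟩
        have hB1 : B.erase i ∈ F.memberSubfamily i := by
          rw [mem_memberSubfamily]; exact ⟨by rwa [insert_erase hiB], by simp⟩
        rw [hpos B hiB] at hAB
        rw [hpos A hiA] at hBA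
        have h := ih hnd _ h11 _ hA1 _ hB1
          (by
            intro x hx
            rw [mem_erase] at hx
            have := hAB hx.2
            rw [mem_insert] at this
            exact this.resolve_left hx.1)
          (by
            intro x hx
            rw [mem_erase] at hx
            have := hBA hx.2
            rw [mem_insert] at this
            exact this.resolve_left hx.1)
        rw [← insert_erase hiA, ← insert_erase hiB, h]
      · exact (mixed A hA B hB hiA hiB hAB hBA).elim
    · by_cases hiB : i ∈ B
      · exact (mixed B hB A hA hiB hiA hBA hAB).elim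
      · have hA0 : A ∈ F.nonMemberSubfamily i := by
          rw [mem_nonMemberSubfamily]; exact ⟨hA, hiA⟩
        have hB0 : B ∈ F.nonMemberSubfamily i := by
          rw [mem_nonMemberSubfamily]; exact ⟨hB, hiB⟩
        have aux : ∀ A B, i ∉ A → i ∉ B → A ⊆ star (i :: l) F B →
            A ⊆ star l (F.nonMemberSubfamily i) B := by
          intro A B hiA hiB h
          rw [hneg B hiB] at h
          split_ifs at h with h2
          · exact h
          · intro x hx
            have := h hx
            rw [mem_insert] at this
            exact this.resolve_left (fun h => hiA (h ▸ hx))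
        exact ih hnd _ h00 _ hA0 _ hB0 (aux A B hiA hiB hAB) (aux B A hiB hiA hBA)

end Pool.Agent.TH477.UCD
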