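import Pool.Agent.TH477.UCD.Weight

/-!
# Minimum density of union-closed families: the lower bound

`main_bound`: if `γ (2 ^ j + 1) ≤ j 2 ^ j / 2 + n` for all `j`, then every union-closed family
whose union has `n` elements has average member size at least `γ`.
-/

namespace Pool.Agent.TH477.UCD

open Finset

variable {α : Type*} [DecidableEq α]

/-- the case of a union-closed family to which one set of size `n` is added -/
theorem case_top {n : ℕ} {γ : ℚ} (hγ : ∀ j : ℕ, γ * (2 ^ j + 1) ≤ j * 2 ^ j / 2 + n)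
    {G : Finset (Finset α)} (hG : ∀ A ∈ G, ∀ B ∈ G, A ∪ B ∈ G) (hne : G.Nonempty) :
    γ * (G.card + 1) ≤ ∑ A ∈ G, (A.card : ℚ) + n := by
  have hM : G.card ≠ 0 := by
    rw [Ne, card_eq_zero]; exact hne.ne_empty
  have hw := weight_lower hG
  rw [c2_pos hM] at hw
  set k := Nat.log 2 G.card with hk
  have h1 : 2 ^ k ≤ G.card := Nat.pow_log_le_self 2 hM
  have h2 : G.card < 2 ^ (k + 1) := Nat.lt_pow_succ_log_self (by norm_num) _
  obtain ⟨j, hj⟩ := Nat.exists_eq_add_of_le h1
  have hjlt : j ≤ 2 ^ k := by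
    rw [hj, pow_succ] at h2; omega
  have hw' : (((k : ℚ) + 2) * G.card - 2 ^ (k + 1)) ≤ 2 * ∑ A ∈ G, (A.card : ℚ) := by
    exact_mod_cast hw
  have hjq : (G.card : ℚ) = 2 ^ k + j := by
    rw [hj]; push_cast; ring
  rw [hjq] at hw' ⊢
  have a1 := hγ k
  have a2 := hγ (k + 1)
  push_cast at a2
  rw [pow_succ] at a2 hw'
  have hP : (0 : ℚ) < 2 ^ k := by positivity
  have hjP : (j : ℚ) ≤ 2 ^ k := by exact_mod_cast hjlt
  have hj0 : (0 : ℚ) ≤ j := by positivity
  set P : ℚ := 2 ^ k with hPdef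
  have b1 := mul_le_mul_of_nonneg_left a1 (sub_nonneg.2 hjP)
  have b2 := mul_le_mul_of_nonneg_left a2 hj0
  have b3 : P * (γ * (P + j + 1)) ≤ P * ((k * P + (k + 2) * j) / 2 + n) := by
    nlinarith
  have b4 := le_of_mul_le_mul_left b3 hP
  linarith

theorem small_card {n a : ℕ} {γ : ℚ} (hγ : ∀ j : ℕ, γ * (2 ^ j + 1) ≤ j * 2 ^ j / 2 + n)
    (ha : 1 ≤ a) (hlt : (a : ℚ) < γ) : γ * (2 ^ (a - 1) + 1) ≤ n := by
  obtain ⟨b, rfl⟩ := Nat.exists_eq_add_of_le ha
  rw [show 1 + b - 1 = b by omega]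
  have h := hγ (2 * b + 1)
  have e : (2 : ℚ) ^ (2 * b + 1) = 2 * (2 ^ b) ^ 2 := by
    rw [pow_succ, pow_mul, ← pow_mul, ← pow_mul, mul_comm 2 b]; ring
  rw [e] at h
  have htb : b + 1 ≤ 2 ^ b := Nat.lt_two_pow_self
  have htb' : ((b : ℚ) + 1) ≤ 2 ^ b := by exact_mod_cast htb
  set t : ℚ := 2 ^ b with ht
  have ht1 : (1 : ℚ) ≤ t := by
    have : (0 : ℚ) ≤ b := by positivity
    linarith
  push_cast at h hlt
  have hb0 : (0 : ℚ) ≤ b := by positivity
  -- first consequence: n is large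
  have hn1 : t ^ 2 + b + 1 < n := by
    have h2 : ((1 : ℚ) + b) * (2 * t ^ 2 + 1) < γ * (2 * t ^ 2 + 1) := by
      apply mul_lt_mul_of_pos_right hlt (by positivity)
    nlinarith
  have hn2 : t ^ 2 + b + 2 ≤ n := by
    have e1 : ((((2 ^ b) ^ 2 + b + 1 : ℕ)) : ℚ) < n := by
      push_cast; rw [← ht]; exact hn1
    have e2 : (2 ^ b) ^ 2 + b + 1 < n := by exact_mod_cast e1
    have e3 : (((2 ^ b) ^ 2 + b + 2 : ℕ) : ℚ) ≤ n := by exact_mod_cast e2
    push_cast at e3
    rw [← ht] at e3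
    linarith
  -- second consequence
  have h5 : (2 * b + 1) * t * (t + 1) ≤ n * (2 * t - 1) := by
    have h6 : (t ^ 2 + b + 2) * (2 * t - 1) ≤ n * (2 * t - 1) :=
      mul_le_mul_of_nonneg_right hn2 (by linarith)
    have h7 : (b + 1) * t ^ 2 ≤ t * t ^ 2 := mul_le_mul_of_nonneg_right htb' (by positivity)
    nlinarith
  have h8 : γ * (t + 1) * (2 * t ^ 2 + 1) ≤ n * (2 * t ^ 2 + 1) := by
    have h9 : γ * (2 * t ^ 2 + 1) * (t + 1) ≤ ((2 * b + 1) * (2 * t ^ 2) / 2 + n) * (t + 1) :=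
      mul_le_mul_of_nonneg_right h (by linarith)
    have h10 : (2 * b + 1) * t * (t + 1) * t ≤ n * (2 * t - 1) * t :=
      mul_le_mul_of_nonneg_right h5 (by linarith)
    nlinarith
  exact le_of_mul_le_mul_right h8 (by positivity)

theorem sup_mem {F : Finset (Finset α)} (hF : ∀ A ∈ F, ∀ B ∈ F, A ∪ B ∈ F)
    (hne : F.Nonempty) : F.sup id ∈ F := by
  have : ∀ G : Finset (Finset α), G.Nonempty → G ⊆ F → G.sup id ∈ F := by
    intro G hG
    induction hG using Finset.Nonempty.cons_induction with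
    | singleton a => intro h; simpa using h
    | cons a s ha hs ih =>
      intro h
      rw [sup_cons]
      have h1 : a ∈ F := h (mem_cons_self _ _)
      have h2 := ih (fun x hx => h (mem_cons_of_mem hx))
      exact hF _ h1 _ h2
  exact this F hne (Subset.refl _)

theorem main_bound_of_empty_mem {n : ℕ} (hn : 1 ≤ n) {γ : ℚ}
    (hγ : ∀ j : ℕ, γ * (2 ^ j + 1) ≤ j * 2 ^ j / 2 + n)
    {F : Finset (Finset α)} (hF : ∀ A ∈ F, ∀ B ∈ F, A ∪ B ∈ F) (hemp : ∅ ∈ F)
    (hcard : (F.sup id).card = n) : γ * F.card ≤ ∑ A ∈ F, (A.card : ℚ) := by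
  by_contra hcon
  push Not at hcon
  have hne : F.Nonempty := ⟨_, hemp⟩
  have hW0 : (0 : ℚ) ≤ ∑ A ∈ F, (A.card : ℚ) := sum_nonneg (fun _ _ => by positivity)
  have hm0 : (0 : ℚ) < F.card := by exact_mod_cast card_pos.2 hne
  have hγ0 : 0 < γ := by
    by_contra h
    push Not at h
    nlinarith
  set N := F.sup id with hN
  have hNne : N.Nonempty := by rw [← card_pos, hcard]; omega
  -- a rarest element
  obtain ⟨x, hxN, hxmin⟩ := exists_min_image N (fun y => (F.filter (fun A => y ∈ A)).card) hNne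
  set Fx := F.filter (fun A => x ∈ A) with hFx
  set G := F.filter (fun A => x ∉ A) with hGdef
  have hsplitcard : Fx.card + G.card = F.card := by
    rw [hFx, hGdef, card_filter_add_card_filter_not]
  have hdouble : ∑ A ∈ F, A.card = ∑ y ∈ N, (F.filter (fun A => y ∈ A)).card := by
    have h1 : ∀ A ∈ F, A.card = ∑ y ∈ N, if y ∈ A then 1 else 0 := by
      intro A hA
      rw [← card_filter]
      congr 1
      ext y
      rw [mem_filter]
      constructor
      · intro hy
        exact ⟨(le_sup (f := id) hA : A ⊆ N) hy, hy⟩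
      · exact fun h => h.2
    rw [sum_congr rfl h1, sum_comm]
    apply sum_congr rfl
    intro y _
    rw [card_filter]
  have hnf : (n : ℚ) * Fx.card ≤ ∑ A ∈ F, (A.card : ℚ) := by
    have h1 : N.card * Fx.card ≤ ∑ A ∈ F, A.card := by
      rw [hdouble, ← smul_eq_mul, ← sum_const]
      exact sum_le_sum (fun y hy => hxmin y hy)
    rw [hcard] at h1
    exact_mod_cast h1
  -- all members containing `x` are large
  have hlarge : ∀ A ∈ Fx, γ ≤ A.card := by
    intro A hA
    by_contra hlt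
    push Not at hlt
    rw [hFx, mem_filter] at hA
    have ha : 1 ≤ A.card := card_pos.2 ⟨x, hA.2⟩
    have h1 := small_card hγ ha hlt
    have h2 : G.card ≤ Fx.card * 2 ^ (A.card - 1) := by
      have h3 : (Fx ×ˢ (A.erase x).powerset).card = Fx.card * 2 ^ (A.card - 1) := by
        rw [card_product, card_powerset, card_erase_of_mem hA.2]
      rw [← h3]
      apply card_le_card_of_injOn (fun B => (A ∪ B, B ∩ A.erase x))
      · intro B hB
        rw [hGdef, mem_coe, mem_filter] at hB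
        rw [mem_coe, mem_product, mem_powerset, hFx, mem_filter]
        exact ⟨⟨hF _ hA.1 _ hB.1, mem_union_left _ hA.2⟩, inter_subset_right⟩
      · intro B hB C hC hBC
        rw [hGdef, mem_coe, mem_filter] at hB hC
        simp only [Prod.mk.injEq] at hBC
        ext y
        by_cases hyA : y ∈ A
        · by_cases hyx : y = x
          · rw [hyx]; exact ⟨fun h => (hB.2 h).elim, fun h => (hC.2 h).elim⟩
          · have := Finset.ext_iff.1 hBC.2 y
            simp only [mem_inter, mem_erase] at this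
            tauto
        · have := Finset.ext_iff.1 hBC.1 y
          simp only [mem_union] at this
          tauto
    have h4 : (F.card : ℚ) ≤ Fx.card * (2 ^ (A.card - 1) + 1) := by
      have : F.card ≤ Fx.card * (2 ^ (A.card - 1) + 1) := by
        rw [← hsplitcard, mul_add, mul_one]; omega
      exact_mod_cast this
    have h5 : γ * F.card ≤ γ * (Fx.card * (2 ^ (A.card - 1) + 1)) :=
      mul_le_mul_of_nonneg_left h4 hγ0.le
    have h6 : (Fx.card : ℚ) * (γ * (2 ^ (A.card - 1) + 1)) ≤ Fx.card * n :=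
      mul_le_mul_of_nonneg_left h1 (by positivity)
    linarith
  -- the weight of the members containing `x`
  have hNF : N ∈ F := sup_mem hF hne
  have hNFx : N ∈ Fx := by rw [hFx, mem_filter]; exact ⟨hNF, hxN⟩
  have hWx : γ * (Fx.card - 1) + n ≤ ∑ A ∈ Fx, (A.card : ℚ) := by
    rw [← add_sum_erase _ _ hNFx, hcard]
    have h1 : ((Fx.erase N).card : ℚ) = Fx.card - 1 := by
      rw [card_erase_of_mem hNFx, Nat.cast_sub (card_pos.2 ⟨N, hNFx⟩)]; simp
    have h2 : ∑ A ∈ Fx.erase N, γ ≤ ∑ A ∈ Fx.erase N, (A.card : ℚ) :=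
      sum_le_sum (fun A hA => hlarge A (mem_of_mem_erase hA))
    rw [sum_const, nsmul_eq_mul, h1] at h2
    linarith
  -- the members avoiding `x`
  have hGuc : ∀ A ∈ G, ∀ B ∈ G, A ∪ B ∈ G := by
    intro A hA B hB
    rw [hGdef, mem_filter] at hA hB ⊢
    exact ⟨hF _ hA.1 _ hB.1, by simp [hA.2, hB.2]⟩
  have hGne : G.Nonempty := ⟨∅, by rw [hGdef, mem_filter]; exact ⟨hemp, by simp⟩⟩
  have hG := case_top hγ hGuc hGne
  have hsplit : ∑ A ∈ Fx, (A.card : ℚ) + ∑ A ∈ G, (A.card : ℚ) = ∑ A ∈ F, (A.card : ℚ) := by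
    rw [hFx, hGdef, sum_filter_add_sum_filter_not]
  have hc : (F.card : ℚ) = Fx.card + G.card := by rw [← hsplitcard]; push_cast; ring
  rw [hc] at hcon
  linarith

theorem main_bound {n : ℕ} (hn : 1 ≤ n) {γ : ℚ} (hγ0 : 0 ≤ γ)
    (hγ : ∀ j : ℕ, γ * (2 ^ j + 1) ≤ j * 2 ^ j / 2 + n)
    {F : Finset (Finset α)} (hF : ∀ A ∈ F, ∀ B ∈ F, A ∪ B ∈ F)
    (hcard : (F.sup id).card = n) : γ * F.card ≤ ∑ A ∈ F, (A.card : ℚ) := by
  by_cases hemp : ∅ ∈ F
  · exact main_bound_of_empty_mem hn hγ hF hemp hcard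
  · have h1 : ∀ A ∈ insert ∅ F, ∀ B ∈ insert ∅ F, A ∪ B ∈ insert ∅ F := by
      intro A hA B hB
      rw [mem_insert] at hA hB ⊢
      rcases hA with rfl | hA
      · rcases hB with rfl | hB
        · left; simp
        · right; simpa using hB
      · rcases hB with rfl | hB
        · right; simpa using hA
        · right; exact hF _ hA _ hB
    have h2 := main_bound_of_empty_mem hn hγ h1 (mem_insert_self _ _) (by
      rw [sup_insert]
      simpa using hcard)
    rw [sum_insert hemp, card_insert_of_notMem hemp] at h2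
    push_cast at h2
    simp only [card_empty, Nat.cast_zero, zero_add] at h2
    nlinarith

end Pool.Agent.TH477.UCD
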