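import Pool.Agent.TH477.UCD.Comp

/-!
# The integral form of the average size theorem for union-closed families

`weight_lower`: a union-closed family with `M ≥ 1` members and total size `W` satisfies
`(k + 2) M - 2 ^ (k + 1) ≤ 2 W` for `k = ⌊log₂ M⌋`.
-/

namespace Pool.Agent.TH477.UCD

open Finset

/-- twice the piecewise linear interpolation of `m log₂ m / 2` at the powers of two -/
def c2 (m : ℕ) : ℤ := if m = 0 then 0 else ((Nat.log 2 m : ℤ) + 2) * m - 2 ^ (Nat.log 2 m + 1)

theorem c2_zero : c2 0 = 0 := by simp [c2]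

theorem c2_pos {m : ℕ} (hm : m ≠ 0) :
    c2 m = ((Nat.log 2 m : ℤ) + 2) * m - 2 ^ (Nat.log 2 m + 1) := by simp [c2, hm]

theorem aux_pow (j : ℕ) : (j : ℤ) + 1 ≤ 2 ^ j := by
  have : j < 2 ^ j := Nat.lt_two_pow_self
  have h2 : j + 1 ≤ 2 ^ j := this
  exact_mod_cast h2

theorem tangent_le {m : ℕ} (hm : m ≠ 0) (k : ℕ) :
    ((k : ℤ) + 2) * m - 2 ^ (k + 1) ≤ c2 m := by
  rw [c2_pos hm]
  set L := Nat.log 2 m with hL
  have h1 : (2 : ℤ) ^ L ≤ m := by
    have := Nat.pow_log_le_self 2 hm
    exact_mod_cast this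
  have h2 : (m : ℤ) < 2 ^ (L + 1) := by
    have := Nat.lt_pow_succ_log_self (b := 2) (by norm_num) m
    exact_mod_cast this
  rcases le_total k L with h | h
  · obtain ⟨j, hj⟩ := Nat.exists_eq_add_of_le h
    rw [hj] at h1 h2 ⊢
    push_cast
    have hp : (0 : ℤ) < 2 ^ k := by positivity
    have e1 : (2 : ℤ) ^ (k + j) = 2 ^ k * 2 ^ j := pow_add _ _ _
    have e2 : (2 : ℤ) ^ (k + j + 1) = 2 * (2 ^ k * 2 ^ j) := by rw [pow_succ, pow_add]; ring
    have e3 : (2 : ℤ) ^ (k + 1) = 2 * 2 ^ k := by rw [pow_succ]; ring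
    rw [e1] at h1
    rw [e2] at h2 ⊢
    rw [e3]
    have hj2 := aux_pow j
    -- need: j * m ≥ 2 * 2^k*2^j - 2 * 2^k
    have h3 : (j : ℤ) * (2 ^ k * 2 ^ j) ≤ j * m := by
      apply mul_le_mul_of_nonneg_left h1 (by positivity)
    have h4 : 2 * (2 ^ k * 2 ^ j) - 2 * 2 ^ k ≤ (j : ℤ) * (2 ^ k * 2 ^ j) := by
      have h5 : 2 * 2 ^ j - 2 ≤ (j : ℤ) * 2 ^ j := by
        rcases Nat.lt_or_ge j 2 with hlt | hge
        · interval_cases j <;> norm_num
        · have : (2 : ℤ) ≤ j := by exact_mod_cast hge
          nlinarith [pow_pos (by norm_num : (0 : ℤ) < 2) j]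
      nlinarith
    linarith
  · obtain ⟨j, hj⟩ := Nat.exists_eq_add_of_le h
    rw [hj]
    push_cast
    have e2 : (2 : ℤ) ^ (L + j + 1) = 2 ^ (L + 1) * 2 ^ j := by
      rw [show L + j + 1 = (L + 1) + j by ring, pow_add]
    rw [e2]
    have hj2 := aux_pow j
    have hp : (0 : ℤ) < 2 ^ (L + 1) := by positivity
    have h3 : (j : ℤ) * m ≤ j * 2 ^ (L + 1) := by
      apply mul_le_mul_of_nonneg_left h2.le (by positivity)
    nlinarith

theorem c2_add {a b : ℕ} (h : b ≤ a) : c2 a + c2 b + 2 * b ≤ c2 (a + b) := by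
  rcases Nat.eq_zero_or_pos b with rfl | hb
  · simp [c2_zero]
  have ha : a ≠ 0 := by omega
  have hb0 : b ≠ 0 := by omega
  have hab : a + b ≠ 0 := by omega
  set p := Nat.log 2 a with hp
  set q := Nat.log 2 b with hq
  have hqp : q ≤ p := Nat.log_mono_right h
  have b1 : (2 : ℤ) ^ q ≤ b := by
    have := Nat.pow_log_le_self 2 hb0
    exact_mod_cast this
  have b2 : (b : ℤ) < 2 ^ (q + 1) := by
    have := Nat.lt_pow_succ_log_self (b := 2) (by norm_num) b
    exact_mod_cast this
  rw [c2_pos ha, c2_pos hb0, ← hp, ← hq]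
  rcases Nat.lt_or_ge q p with hlt | hge
  · have ht := tangent_le hab p
    push_cast at ht
    refine le_trans ?_ ht
    have hb' : (0 : ℤ) ≤ b := by positivity
    have e : (2 : ℤ) ^ (q + 1) = 2 * 2 ^ q := by rw [pow_succ]; ring
    rcases Nat.lt_or_ge (q + 1) p with h3 | h3
    · have h4 : (q : ℤ) + 2 ≤ p := by exact_mod_cast h3
      nlinarith [pow_pos (by norm_num : (0 : ℤ) < 2) (q + 1)]
    · have h4 : p = q + 1 := by omega
      have h5 : (p : ℤ) = q + 1 := by exact_mod_cast h4
      rw [h5]
      nlinarith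
  · have h4 : p = q := by omega
    have ht := tangent_le hab (p + 1)
    push_cast at ht
    refine le_trans ?_ ht
    rw [h4]
    have e : (2 : ℤ) ^ (q + 1 + 1) = 2 * 2 ^ (q + 1) := by rw [pow_succ]; ring
    rw [e]
    have h' : (b : ℤ) ≤ a := by exact_mod_cast h
    nlinarith

variable {α : Type*} [DecidableEq α]

theorem sum_split (F : Finset (Finset α)) (i : α) (f : Finset α → ℤ) :
    ∑ A ∈ F, f A = ∑ A ∈ F.nonMemberSubfamily i, f A +
      ∑ A ∈ F.memberSubfamily i, f (insert i A) := by
  have h1 : ∑ A ∈ F.memberSubfamily i, f (insert i A) = ∑ A ∈ F with i ∈ A, f A := by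
    unfold memberSubfamily
    rw [sum_image]
    · apply sum_congr rfl
      intro A hA
      rw [mem_filter] at hA
      rw [insert_erase hA.2]
    · intro A hA B hB h
      simp only [coe_filter, Set.mem_setOf_eq] at hA hB
      simp only at h
      rw [← insert_erase hA.2, ← insert_erase hB.2, h]
  rw [h1]
  unfold nonMemberSubfamily
  rw [add_comm, sum_filter_add_sum_filter_not]

theorem upset_bound (l : List α) : l.Nodup → ∀ U : Finset (Finset α),
    (∀ B ∈ U, B ⊆ l.toFinset) → (∀ B ∈ U, ∀ j ∈ l, insert j B ∈ U) →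
    2 * ∑ B ∈ U, ((l.length : ℤ) - B.card) ≤ c2 U.card := by
  induction l with
  | nil =>
    intro _ U hU _
    have h0 : ∀ B ∈ U, B = ∅ := by
      intro B hB
      have := hU B hB
      simpa using this
    have hsub : U ⊆ {∅} := by
      intro B hB
      rw [mem_singleton]
      exact h0 B hB
    have hsum : ∑ B ∈ U, ((([] : List α).length : ℤ) - B.card) = 0 := by
      apply sum_eq_zero
      intro B hB
      rw [h0 B hB]; simp
    rw [hsum]
    rcases subset_singleton_iff.1 hsub with h | h
    · rw [h]; simp [c2]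
    · rw [h]; simp [c2]
  | cons i l ih =>
    intro hnd U hU hup
    rw [List.nodup_cons] at hnd
    obtain ⟨hil, hnd⟩ := hnd
    have hU0 : ∀ B ∈ U.nonMemberSubfamily i, B ⊆ l.toFinset := by
      intro B hB x hx
      rw [mem_nonMemberSubfamily] at hB
      have := hU B hB.1 hx
      rw [List.toFinset_cons, mem_insert] at this
      exact this.resolve_left (fun h => hB.2 (h ▸ hx))
    have hU1 : ∀ B ∈ U.memberSubfamily i, B ⊆ l.toFinset := by
      intro B hB x hx
      rw [mem_memberSubfamily] at hB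
      have := hU _ hB.1 (mem_insert_of_mem hx)
      rw [List.toFinset_cons, mem_insert] at this
      exact this.resolve_left (fun h => hB.2 (h ▸ hx))
    have hup0 : ∀ B ∈ U.nonMemberSubfamily i, ∀ j ∈ l, insert j B ∈ U.nonMemberSubfamily i := by
      intro B hB j hj
      rw [mem_nonMemberSubfamily] at hB ⊢
      refine ⟨hup B hB.1 j (List.mem_cons_of_mem _ hj), ?_⟩
      rw [mem_insert]
      rintro (h | h)
      · exact hil (h ▸ hj)
      · exact hB.2 h
    have hup1 : ∀ B ∈ U.memberSubfamily i, ∀ j ∈ l, insert j B ∈ U.memberSubfamily i := by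
      intro B hB j hj
      rw [mem_memberSubfamily] at hB ⊢
      refine ⟨?_, ?_⟩
      · have := hup _ hB.1 j (List.mem_cons_of_mem _ hj)
        rwa [insert_comm] at this
      · rw [mem_insert]
        rintro (h | h)
        · exact hil (h ▸ hj)
        · exact hB.2 h
    have hsub : U.nonMemberSubfamily i ⊆ U.memberSubfamily i := by
      intro B hB
      rw [mem_nonMemberSubfamily] at hB
      rw [mem_memberSubfamily]
      exact ⟨hup B hB.1 i List.mem_cons_self, hB.2⟩
    have i0 := ih hnd _ hU0 hup0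
    have i1 := ih hnd _ hU1 hup1
    have hcard := card_memberSubfamily_add_card_nonMemberSubfamily i U
    have hadd := c2_add (card_le_card hsub)
    rw [hcard] at hadd
    rw [sum_split U i]
    have s0 : ∑ A ∈ U.nonMemberSubfamily i, (((i :: l).length : ℤ) - A.card) =
        ∑ A ∈ U.nonMemberSubfamily i, ((l.length : ℤ) - A.card) +
          (U.nonMemberSubfamily i).card := by
      rw [card_eq_sum_ones]
      push_cast
      rw [← sum_add_distrib]
      apply sum_congr rfl
      intro A _
      simp only [List.length_cons]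
      push_cast
      ring
    have s1 : ∑ A ∈ U.memberSubfamily i, (((i :: l).length : ℤ) - (insert i A).card) =
        ∑ A ∈ U.memberSubfamily i, ((l.length : ℤ) - A.card) := by
      apply sum_congr rfl
      intro A hA
      rw [mem_memberSubfamily] at hA
      rw [card_insert_of_notMem hA.2]
      simp only [List.length_cons]
      push_cast
      ring
    rw [s0, s1]
    linarith

theorem frac_bound (k e : ℕ) : ((k : ℚ) + 2 - e) ≤ 2 ^ (k + 1) * (1 / 2) ^ e := by
  rcases Nat.lt_or_ge (k + 1) e with h | h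
  · have h1 : ((k : ℚ) + 2) ≤ e := by exact_mod_cast h
    have h2 : (0 : ℚ) ≤ 2 ^ (k + 1) * (1 / 2) ^ e := by positivity
    linarith
  · obtain ⟨j, hj⟩ := Nat.exists_eq_add_of_le h
    rw [hj, pow_add]
    have h1 : (2 : ℚ) ^ e * 2 ^ j * (1 / 2) ^ e = 2 ^ j := by
      rw [mul_right_comm, ← mul_pow]; norm_num
    rw [h1]
    have h2 := aux_pow j
    have h3 : ((j : ℚ) + 1) ≤ 2 ^ j := by exact_mod_cast h2
    have h4 : ((k : ℚ) + 1) = e + j := by exact_mod_cast hj
    linarith

theorem weight_lower {F : Finset (Finset α)} (hF : ∀ A ∈ F, ∀ B ∈ F, A ∪ B ∈ F) :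
    c2 F.card ≤ 2 * ∑ A ∈ F, (A.card : ℤ) := by
  rcases F.eq_empty_or_nonempty with rfl | hne
  · simp [c2]
  have hM : F.card ≠ 0 := by
    rw [Ne, card_eq_zero]; exact hne.ne_empty
  set l : List α := (F.sup id).toList with hl
  have hnd : l.Nodup := nodup_toList _
  have hlt : l.toFinset = F.sup id := toList_toFinset _
  have hsubl : ∀ A ∈ F, A ⊆ l.toFinset := by
    intro A hA
    rw [hlt]
    exact le_sup (f := id) hA
  have hstl : ∀ A ∈ F, star l F A ⊆ l.toFinset := by
    intro A hA
    exact (star_subset l F A).trans (union_subset (hsubl A hA) (Subset.refl _))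
  have hlen : l.toFinset.card = l.length := List.toFinset_card_of_nodup hnd
  have hinj : Set.InjOn (star l F) (F : Set (Finset α)) := by
    intro A hA B hB h
    apply eq_of_subset_star l hnd F hF A hA B hB
    · rw [← h]; exact subset_star _ _ _
    · rw [h]; exact subset_star _ _ _
  have hcomp : comp l F = F.image (star l F) := by
    ext B
    rw [mem_image]
    constructor
    · exact exists_star_eq l F B
    · rintro ⟨A, hA, rfl⟩
      exact star_mem_comp l F A hA
  have hcard : (comp l F).card = F.card := by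
    rw [hcomp, card_image_of_injOn hinj]
  -- the up-set inequality
  have hup := upset_bound l hnd (comp l F)
    (by
      intro B hB
      obtain ⟨A, hA, rfl⟩ := exists_star_eq l F B hB
      exact hstl A hA)
    (comp_up l F)
  rw [hcard, hcomp, sum_image hinj] at hup
  -- the intervals are disjoint
  have hdisj : ((F : Set (Finset α))).PairwiseDisjoint (fun A => Icc A (star l F A)) := by
    intro A hA B hB hAB
    rw [Function.onFun, disjoint_left]
    intro C hC1 hC2
    rw [mem_Icc] at hC1 hC2
    exact hAB (eq_of_subset_star l hnd F hF A hA B hB (hC1.1.trans hC2.2) (hC2.1.trans hC1.2))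
  have hsum : ∑ A ∈ F, 2 ^ ((star l F A).card - A.card) ≤ 2 ^ l.length := by
    have h1 : ∑ A ∈ F, 2 ^ ((star l F A).card - A.card) =
        (F.biUnion (fun A => Icc A (star l F A))).card := by
      rw [card_biUnion hdisj]
      apply sum_congr rfl
      intro A _
      rw [card_Icc_finset (subset_star l F A)]
    rw [h1, ← hlen, ← card_powerset]
    apply card_le_card
    intro C hC
    rw [mem_biUnion] at hC
    obtain ⟨A, hA, hC⟩ := hC
    rw [mem_Icc] at hC
    rw [mem_powerset]
    exact hC.2.trans (hstl A hA)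
  -- the rational form
  set k := Nat.log 2 F.card with hk
  have hfrac : ∑ A ∈ F, ((k : ℚ) + 2 - (l.length - (star l F A).card + A.card)) ≤
      2 ^ (k + 1) := by
    have h1 : ∀ A ∈ F, ((k : ℚ) + 2 - (l.length - (star l F A).card + A.card)) ≤
        2 ^ (k + 1) * (((2 : ℚ) ^ ((star l F A).card - A.card)) / 2 ^ l.length) := by
      intro A hA
      have c1 : A.card ≤ (star l F A).card := card_le_card (subset_star l F A)
      have c3 : (star l F A).card ≤ l.length := by
        rw [← hlen]; exact card_le_card (hstl A hA)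
      have h2 := frac_bound k (l.length - (star l F A).card + A.card)
      have h3 : ((l.length - (star l F A).card + A.card : ℕ) : ℚ) =
          l.length - (star l F A).card + A.card := by
        rw [Nat.cast_add, Nat.cast_sub c3]
      rw [h3] at h2
      refine h2.trans (le_of_eq ?_)
      congr 1
      rw [eq_div_iff (by positivity), one_div, inv_pow]
      rw [inv_mul_eq_div, div_eq_iff (by positivity), ← pow_add]
      congr 1
      omega
    calc ∑ A ∈ F, ((k : ℚ) + 2 - (l.length - (star l F A).card + A.card))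
        ≤ ∑ A ∈ F, 2 ^ (k + 1) * (((2 : ℚ) ^ ((star l F A).card - A.card)) / 2 ^ l.length) :=
          sum_le_sum h1
      _ = 2 ^ (k + 1) * ((∑ A ∈ F, (2 : ℚ) ^ ((star l F A).card - A.card)) / 2 ^ l.length) := by
          rw [← mul_sum, ← sum_div]
      _ ≤ 2 ^ (k + 1) * 1 := by
          apply mul_le_mul_of_nonneg_left _ (by positivity)
          rw [div_le_one (by positivity)]
          exact_mod_cast hsum
      _ = 2 ^ (k + 1) := mul_one _
  have hint : ∑ A ∈ F, ((k : ℤ) + 2 - (l.length - (star l F A).card + A.card)) ≤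
      2 ^ (k + 1) := by
    have := hfrac
    exact_mod_cast this
  have hexp : ∑ A ∈ F, ((k : ℤ) + 2 - (l.length - (star l F A).card + A.card)) =
      ((k : ℤ) + 2) * F.card - ∑ A ∈ F, ((l.length : ℤ) - (star l F A).card) -
        ∑ A ∈ F, (A.card : ℤ) := by
    have : ∀ A ∈ F, ((k : ℤ) + 2 - (l.length - (star l F A).card + A.card)) =
        ((k : ℤ) + 2) - ((l.length : ℤ) - (star l F A).card) - (A.card : ℤ) := by
      intro A _; ring
    rw [sum_congr rfl this, sum_sub_distrib, sum_sub_distrib, sum_const, nsmul_eq_mul]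
    ring
  rw [hexp] at hint
  rw [c2_pos hM, ← hk] at hup ⊢
  linarith

end Pool.Agent.TH477.UCD
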